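import Pool.Agent.Lib.MP_a0e7a4_nt.Main

set_option autoImplicit false

namespace Pool.Agent.Variants.MP_a0e7a4_nt.WeakLonely

/-- Weak lonely runner bound: there is a constant `c > 1/2` such that for every `n ≥ 2` and all
non-zero real velocities `v_1, …, v_n` (not required to be distinct) there is a time `t > 0` at
which every `v_i t` has distance at least `c / n` from every integer. -/
theorem result :
    ∃ c : ℝ, 1 / 2 < c ∧ ∀ n : ℕ, 2 ≤ n → ∀ v : Fin n → ℝ, (∀ i, v i ≠ 0) →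
      ∃ t : ℝ, 0 < t ∧ ∀ (i : Fin n) (m : ℤ), c / (n : ℝ) ≤ |v i * t - (m : ℝ)| := by
  obtain ⟨c, hc, h⟩ := Pool.Agent.Lib.MP_a0e7a4_nt.weak_lonely
  refine ⟨c, hc, fun n hn v hv => ?_⟩
  obtain ⟨t, ht⟩ := h n hn v hv
  have hall : ∀ (i : Fin n) (m : ℤ), c / (n : ℝ) ≤ |v i * t - (m : ℝ)| :=
    fun i m => (ht i).trans (round_le (v i * t) m)
  have hn0 : (0 : ℝ) < n := by exact_mod_cast (by omega : 0 < n)
  have hpos : 0 < c / (n : ℝ) := div_pos (by linarith) hn0
  rcases lt_trichotomy t 0 with h0 | h0 | h0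
  · refine ⟨-t, by linarith, fun i m => ?_⟩
    have h1 := hall i (-m)
    have e : v i * -t - (m : ℝ) = -(v i * t - ((-m : ℤ) : ℝ)) := by
      push_cast
      ring
    rw [e, abs_neg]
    exact h1
  · have h1 := hall ⟨0, by omega⟩ 0
    rw [h0] at h1
    simp only [mul_zero, Int.cast_zero, sub_zero, abs_zero] at h1
    linarith
  · exact ⟨t, h0, hall⟩

end Pool.Agent.Variants.MP_a0e7a4_nt.WeakLonely
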